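import Mathlib

set_option autoImplicit false

open Cardinal Set

namespace Pool.Agent.Lib.MP_e95952_lc

/-- `S` splits `X`: both `X ∩ S` and `X \ S` are infinite. -/
def Splits (S X : Set ℕ) : Prop := (X ∩ S).Infinite ∧ (X \ S).Infinite

/-- The splitting number: the least size of a family of infinite subsets of `ℕ` such that every
infinite set is split by a member of the family. -/
noncomputable def splittingNumber : Cardinal.{0} :=
  sInf {c | ∃ F : Set (Set ℕ), #F = c ∧ (∀ S ∈ F, S.Infinite) ∧
    ∀ X : Set ℕ, X.Infinite → ∃ S ∈ F, Splits S X}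

/-- An ultrafilter on `ℕ` is nonprincipal if all its members are infinite. -/
def Nonprincipal (U : Ultrafilter ℕ) : Prop := ∀ A ∈ U, A.Infinite

/-- The ultrafilter number: the least size of a base of a nonprincipal ultrafilter on `ℕ`. -/
noncomputable def ultrafilterNumber : Cardinal.{0} :=
  sInf {c | ∃ U : Ultrafilter ℕ, Nonprincipal U ∧ ∃ F : Set (Set ℕ), #F = c ∧ (∀ B ∈ F, B ∈ U) ∧
    ∀ A ∈ U, ∃ B ∈ F, B ⊆ A}

/-- The strong polarized relation for the pair `(k, ω)` and two colours: every two-colouring of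
`k × ω` is constant on some `A × B` with `A` of size `k` and `B` infinite. Here `k` is read as the
set of ordinals below the initial ordinal of `k`. -/
def Polarized (k : Cardinal.{0}) : Prop :=
  ∀ c : k.ord.ToType × ℕ → Fin 2, ∃ (A : Set k.ord.ToType) (B : Set ℕ),
    #A = k ∧ B.Infinite ∧ ∃ i : Fin 2, ∀ a ∈ A, ∀ b ∈ B, c (a, b) = i

/-- Near coherence of ultrafilters: some finite-to-one map sends both to the same ultrafilter. -/
def NearlyCoherent (U V : Ultrafilter ℕ) : Prop :=
  ∃ f : ℕ → ℕ, (∀ m, (f ⁻¹' {m}).Finite) ∧ U.map f = V.map f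

end Pool.Agent.Lib.MP_e95952_lc
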