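import Mathlib
import Pool.Agent.Lib.MP_e95952_lc.Defs

set_option autoImplicit false

open Cardinal Set Filter

namespace Pool.Agent.Lib.MP_e95952_lc

/-- least element of `A` that is at least `n` -/
noncomputable def nxt (A : Set ℕ) (n : ℕ) : ℕ := sInf {m | m ∈ A ∧ n ≤ m}

lemma nxt_spec {A : Set ℕ} (hA : A.Infinite) (n : ℕ) : nxt A n ∈ A ∧ n ≤ nxt A n := by
  have : {m | m ∈ A ∧ n ≤ m}.Nonempty := by
    obtain ⟨m, hm, hnm⟩ := hA.exists_gt n
    exact ⟨m, hm, hnm.le⟩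
  exact Nat.sInf_mem this

lemma exists_index (h : ℕ → ℕ) : ∃ f : ℕ → ℕ, (∀ m, ∃ N, ∀ n, f n ≤ m → n < N) ∧
    ∀ n n', f n + 2 ≤ f n' → h n < n' := by
  let H : ℕ → ℕ := fun n => n + 1 + (Finset.range (n + 1)).sup h
  let a : ℕ → ℕ := fun k => H^[k] 0
  have ha : ∀ k, a (k + 1) = H (a k) := fun k => Function.iterate_succ_apply' H k 0
  have hlt : ∀ k, a k < a (k + 1) := fun k => by rw [ha]; simp only [H]; omega
  have hmono : StrictMono a := strictMono_nat_of_lt_succ hlt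
  have hne : ∀ n, {k | n < a k}.Nonempty := fun n =>
    ⟨n + 1, lt_of_lt_of_le (Nat.lt_succ_self n) (hmono.id_le (n + 1))⟩
  refine ⟨fun n => sInf {k | n < a k}, fun m => ⟨a m, fun n hn => ?_⟩, fun n n' hn => ?_⟩
  · have h1 : n < a (sInf {k | n < a k}) := Nat.sInf_mem (hne n)
    exact lt_of_lt_of_le h1 (hmono.monotone hn)
  · have h1 : n < a (sInf {k | n < a k}) := Nat.sInf_mem (hne n)
    have h2 : ¬ n' < a (sInf {k | n < a k} + 1) := fun h' => by
      have : sInf {k | n' < a k} ≤ sInf {k | n < a k} + 1 := Nat.sInf_le h'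
      simp only at hn
      omega
    rw [ha] at h2
    have h3 : h n ≤ (Finset.range (a (sInf {k | n < a k}) + 1)).sup h :=
      Finset.le_sup (f := h) (Finset.mem_range.2 (by omega))
    simp only [H] at h2
    omega

lemma exists_sep_of_ne {V W : Ultrafilter ℕ} (h : V ≠ W) : ∃ Z, Z ∈ V ∧ Zᶜ ∈ W := by
  by_contra hc
  push Not at hc
  apply h
  ext Z
  constructor
  · intro hZ
    exact (Ultrafilter.compl_notMem_iff).1 (hc Z hZ)
  · intro hZ
    by_contra hZ'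
    have := hc Zᶜ (Ultrafilter.compl_mem_iff_notMem.2 hZ')
    rw [compl_compl] at this
    exact this hZ

/-- separation of two ultrafilters that are not nearly coherent -/
lemma exists_far {V W : Ultrafilter ℕ} (hVW : ¬ NearlyCoherent V W) (h : ℕ → ℕ) :
    ∃ Y ∈ V, ∃ Y' ∈ W, ∀ n ∈ Y, ∀ n' ∈ Y', h n < n' ∨ h n' < n := by
  obtain ⟨f, hf1, hf2⟩ := exists_index h
  have key : ∀ t : ℕ, ∃ Z, Z ∈ V.map (fun n => (f n + t) / 2) ∧
      Zᶜ ∈ W.map (fun n => (f n + t) / 2) := by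
    intro t
    apply exists_sep_of_ne
    intro he
    refine hVW ⟨_, fun m => ?_, he⟩
    obtain ⟨N, hN⟩ := hf1 (2 * m + 1)
    refine (Set.finite_lt_nat N).subset fun n hn => hN n ?_
    simp only [mem_preimage, mem_singleton_iff] at hn
    omega
  obtain ⟨Z0, h0, h0'⟩ := key 0
  obtain ⟨Z1, h1, h1'⟩ := key 1
  rw [Ultrafilter.mem_map] at h0 h0' h1 h1'
  refine ⟨_, Filter.inter_mem h0 h1, _, Filter.inter_mem h0' h1', ?_⟩
  rintro n ⟨a0, a1⟩ n' ⟨b0, b1⟩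
  simp only [mem_preimage, mem_compl_iff] at a0 a1 b0 b1
  have e0 : (f n + 0) / 2 ≠ (f n' + 0) / 2 := fun e => b0 (e ▸ a0)
  have e1 : (f n + 1) / 2 ≠ (f n' + 1) / 2 := fun e => b1 (e ▸ a1)
  by_cases hc : f n + 2 ≤ f n'
  · exact Or.inl (hf2 _ _ hc)
  · exact Or.inr (hf2 _ _ (by omega))

lemma NearlyCoherent.symm {U V : Ultrafilter ℕ} (h : NearlyCoherent U V) : NearlyCoherent V U := by
  obtain ⟨f, hf, he⟩ := h
  exact ⟨f, hf, he.symm⟩

lemma exists_close {U V : Ultrafilter ℕ} (h : NearlyCoherent U V) :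
    ∃ g : ℕ → ℕ, ∀ Y ∈ V, {n | ∃ y ∈ Y, y ≤ g n ∧ n ≤ g y} ∈ U := by
  obtain ⟨f, hf, he⟩ := h
  have hb : ∀ n, ∃ N, ∀ y, f y = f n → y ≤ N := fun n => by
    obtain ⟨N, hN⟩ := (hf (f n)).bddAbove
    exact ⟨N, fun y hy => hN hy⟩
  choose g hg using hb
  refine ⟨g, fun Y hY => ?_⟩
  have h1 : f '' Y ∈ V.map f := by
    rw [Ultrafilter.mem_map]
    exact Filter.mem_of_superset hY (subset_preimage_image f Y)
  rw [← he, Ultrafilter.mem_map] at h1
  refine Filter.mem_of_superset h1 ?_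
  rintro n ⟨y, hy, hyn⟩
  exact ⟨y, hy, hg n y hyn, hg y n hyn.symm⟩

lemma NearlyCoherent.trans' {U V W : Ultrafilter ℕ} (h1 : NearlyCoherent U V)
    (h2 : NearlyCoherent U W) : NearlyCoherent V W := by
  by_contra hc
  obtain ⟨g1, hg1⟩ := exists_close h1
  obtain ⟨g2, hg2⟩ := exists_close h2
  obtain ⟨Y, hY, Y', hY', hfar⟩ := exists_far hc
    (fun m => (Finset.range (g1 m + g2 m + 1)).sup fun n => g1 n + g2 n)
  obtain ⟨n, ⟨y, hy, a1, a2⟩, ⟨y', hy', b1, b2⟩⟩ :=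
    Ultrafilter.nonempty_of_mem (Filter.inter_mem (hg1 Y hY) (hg2 Y' hY'))
  have c1 : g1 n + g2 n ≤ (Finset.range (g1 y + g2 y + 1)).sup fun n => g1 n + g2 n :=
    Finset.le_sup (f := fun n => g1 n + g2 n) (Finset.mem_range.2 (by omega))
  have c2 : g1 n + g2 n ≤ (Finset.range (g1 y' + g2 y' + 1)).sup fun n => g1 n + g2 n :=
    Finset.le_sup (f := fun n => g1 n + g2 n) (Finset.mem_range.2 (by omega))
  rcases hfar y hy y' hy' with h | h <;> omega

/-- the next-element functions of a base of `U` are cofinal modulo every `V` that is not nearly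
coherent with `U` -/
lemma exists_nxt_ge {U V : Ultrafilter ℕ} (hU : Nonprincipal U) {F : Set (Set ℕ)}
    (hF1 : ∀ B ∈ F, B ∈ U) (hF2 : ∀ A ∈ U, ∃ B ∈ F, B ⊆ A) (hUV : ¬ NearlyCoherent U V)
    (h : ℕ → ℕ) : ∃ A ∈ F, {n | h n ≤ nxt A n} ∈ V := by
  obtain ⟨Y', hY', Y, hY, hfar⟩ := exists_far hUV (fun n => h n + n)
  obtain ⟨A, hA, hAY⟩ := hF2 Y' hY'
  refine ⟨A, hA, Filter.mem_of_superset hY fun n hn => ?_⟩
  obtain ⟨a1, a2⟩ := nxt_spec (hU A (hF1 A hA)) n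
  have := hfar _ (hAY a1) n hn
  simp only [mem_ofPred_eq]
  omega

lemma infinite_of_forall_ge {X : Set ℕ} (h : ∀ N, ∃ m ∈ X, N ≤ m) : X.Infinite := by
  refine Set.infinite_of_forall_exists_gt fun N => ?_
  obtain ⟨m, hm, hN⟩ := h (N + 1)
  exact ⟨m, hm, hN⟩

/-- one set splits every `B` whose next-element function is below `h` modulo both ultrafilters -/
lemma exists_split {V W : Ultrafilter ℕ} (hV : Nonprincipal V) (hW : Nonprincipal W)
    (hVW : ¬ NearlyCoherent V W) (h : ℕ → ℕ) :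
    ∃ S : Set ℕ, ∀ B : Set ℕ, B.Infinite → {n | nxt B n ≤ h n} ∈ V → {n | nxt B n ≤ h n} ∈ W →
      Splits S B := by
  obtain ⟨Y, hY, Y', hY', hfar⟩ := exists_far hVW h
  refine ⟨{m | ∃ n ∈ Y, n ≤ m ∧ m ≤ h n}, fun B hB h1 h2 => ⟨?_, ?_⟩⟩
  · refine infinite_of_forall_ge fun N => ?_
    obtain ⟨n, ⟨hn1, hn2⟩, hN⟩ := (hV _ (Filter.inter_mem hY h1)).exists_gt N
    obtain ⟨a1, a2⟩ := nxt_spec hB n
    exact ⟨nxt B n, ⟨a1, n, hn1, a2, hn2⟩, by omega⟩
  · refine infinite_of_forall_ge fun N => ?_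
    obtain ⟨n, ⟨hn1, hn2⟩, hN⟩ := (hW _ (Filter.inter_mem hY' h2)).exists_gt N
    obtain ⟨a1, a2⟩ := nxt_spec hB n
    refine ⟨nxt B n, ⟨a1, ?_⟩, by omega⟩
    rintro ⟨y, hy, b1, b2⟩
    have := hfar y hy n hn1
    simp only [mem_ofPred_eq] at hn2
    omega

/-- every family of fewer than `k` functions is bounded modulo `V` -/
def Bdd (k : Cardinal.{0}) (V : Ultrafilter ℕ) : Prop :=
  ∀ F : Set (ℕ → ℕ), #F < k → ∃ h : ℕ → ℕ, ∀ f ∈ F, {n | f n ≤ h n} ∈ V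

lemma not_polarized_of_seq {k : Cardinal.{0}} (S : k.ord.ToType → Set ℕ)
    (hS : ∀ B : Set ℕ, B.Infinite → #{a | ¬ Splits (S a) B} < k) : ¬ Polarized k := by
  classical
  intro hP
  obtain ⟨A, B, hA, hB, i, hi⟩ := hP fun p => if p.2 ∈ S p.1 then 1 else 0
  have hsub : A ⊆ {a | ¬ Splits (S a) B} := by
    intro a ha hs
    obtain ⟨b, hb1, hb2⟩ := hs.1.nonempty
    obtain ⟨b', hb1', hb2'⟩ := hs.2.nonempty
    have e1 := hi a ha b hb1
    have e2 := hi a ha b' hb1'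
    simp only [hb2, hb2', if_true, if_false] at e1 e2
    exact absurd (e1.trans e2.symm) (by decide)
  have := (mk_le_mk_of_subset hsub).trans_lt (hS B hB)
  rw [hA] at this
  exact lt_irrefl _ this

lemma aleph0_le_of_base {U : Ultrafilter ℕ} (hU : Nonprincipal U) {F : Set (Set ℕ)}
    (hF1 : ∀ B ∈ F, B ∈ U) (hF2 : ∀ A ∈ U, ∃ B ∈ F, B ⊆ A) : ℵ₀ ≤ #F := by
  by_contra hc
  push Not at hc
  have hfin : F.Finite := lt_aleph0_iff_set_finite.1 hc
  have h1 : ⋂₀ F ∈ U := (Filter.sInter_mem hfin).2 hF1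
  obtain ⟨x, hx⟩ := (hU _ h1).nonempty
  have h2 : ({x}ᶜ : Set ℕ) ∈ U := by
    rw [Ultrafilter.compl_mem_iff_notMem]
    exact fun h => hU _ h (finite_singleton x)
  obtain ⟨B, hB, hBx⟩ := hF2 _ h2
  exact hBx (hx B hB) rfl

lemma exists_base : ∃ U : Ultrafilter ℕ, Nonprincipal U ∧ ∃ F : Set (Set ℕ),
    #F = ultrafilterNumber ∧ (∀ B ∈ F, B ∈ U) ∧ ∀ A ∈ U, ∃ B ∈ F, B ⊆ A := by
  have : {c | ∃ U : Ultrafilter ℕ, Nonprincipal U ∧ ∃ F : Set (Set ℕ), #F = c ∧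
      (∀ B ∈ F, B ∈ U) ∧ ∀ A ∈ U, ∃ B ∈ F, B ⊆ A}.Nonempty := by
    refine ⟨_, hyperfilter ℕ, fun A hA hfin => ?_, {A | A ∈ hyperfilter ℕ}, rfl,
      fun B hB => hB, fun A hA => ⟨A, hA, subset_rfl⟩⟩
    exact hfin.notMem_hyperfilter hA
  exact csInf_mem this

/-- two classes besides the class of `U`, both with ultrapowers of large cofinality, give the
negative relation -/
lemma not_polarized_of_bdd {U V W : Ultrafilter ℕ} (hU : Nonprincipal U) (hV : Nonprincipal V)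
    (hW : Nonprincipal W) {F : Set (Set ℕ)} {k : Cardinal.{0}} (hk : #F = k)
    (hF1 : ∀ B ∈ F, B ∈ U) (hF2 : ∀ A ∈ U, ∃ B ∈ F, B ⊆ A) (hUV : ¬ NearlyCoherent U V)
    (hUW : ¬ NearlyCoherent U W) (hVW : ¬ NearlyCoherent V W) (bV : Bdd k V) (bW : Bdd k W) :
    ¬ Polarized k := by
  have hinf : ℵ₀ ≤ k := hk ▸ aleph0_le_of_base hU hF1 hF2
  have := Cardinal.noMaxOrder hinf
  obtain ⟨e⟩ : Nonempty (k.ord.ToType ≃ F) := Cardinal.eq.1 (by rw [mk_ord_toType, hk])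
  have hS : ∀ a : k.ord.ToType, ∃ S : Set ℕ, ∀ B : Set ℕ, B.Infinite → ∀ b1 < a, ∀ b2 < a,
      {n | nxt B n ≤ nxt (e b1) n} ∈ V → {n | nxt B n ≤ nxt (e b2) n} ∈ W → Splits S B := by
    intro a
    have hc : #((fun b => nxt (e b)) '' Iio a) < k :=
      mk_image_le.trans_lt (mk_Iio_toType_ord_lt a)
    obtain ⟨h1, hh1⟩ := bV _ hc
    obtain ⟨h2, hh2⟩ := bW _ hc
    obtain ⟨S, hS⟩ := exists_split hV hW hVW (fun n => h1 n + h2 n)
    refine ⟨S, fun B hB b1 hb1 b2 hb2 c1 c2 => hS B hB ?_ ?_⟩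
    · refine Filter.mem_of_superset (Filter.inter_mem c1 (hh1 _ ⟨b1, hb1, rfl⟩)) ?_
      rintro n ⟨d1, d2⟩
      simp only [mem_ofPred_eq] at d1 d2 ⊢
      omega
    · refine Filter.mem_of_superset (Filter.inter_mem c2 (hh2 _ ⟨b2, hb2, rfl⟩)) ?_
      rintro n ⟨d1, d2⟩
      simp only [mem_ofPred_eq] at d1 d2 ⊢
      omega
  choose S hS using hS
  refine not_polarized_of_seq S fun B hB => ?_
  obtain ⟨A1, hA1, c1⟩ := exists_nxt_ge hU hF1 hF2 hUV (nxt B)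
  obtain ⟨A2, hA2, c2⟩ := exists_nxt_ge hU hF1 hF2 hUW (nxt B)
  obtain ⟨a0, ha0⟩ := exists_gt (max (e.symm ⟨A1, hA1⟩) (e.symm ⟨A2, hA2⟩))
  refine lt_of_le_of_lt (mk_le_mk_of_subset ?_) (mk_Iio_toType_ord_lt a0)
  intro a ha
  by_contra hle
  simp only [mem_Iio, not_lt] at hle
  have h3 := ha0.trans_le hle
  refine ha (hS a B hB _ ((le_max_left _ _).trans_lt h3) _ ((le_max_right _ _).trans_lt h3) ?_ ?_)
  · simpa using c1
  · simpa using c2

/-- the Blass-Mildenberger argument: two classes of small cofinality give a small splitting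
family -/
lemma bdd_or_bdd {V W : Ultrafilter ℕ} (hV : Nonprincipal V) (hW : Nonprincipal W)
    (hVW : ¬ NearlyCoherent V W) (hinf : ℵ₀ ≤ splittingNumber) :
    Bdd splittingNumber V ∨ Bdd splittingNumber W := by
  by_contra hc
  simp only [Bdd, not_or, not_forall, not_exists] at hc
  obtain ⟨⟨F1, c1, u1⟩, ⟨F2, c2, u2⟩⟩ := hc
  choose S hS using exists_split hV hW hVW
  let G : Set (Set ℕ) := range fun p : F1 × F2 => S fun n => p.1.1 n + p.2.1 n
  have hG : #(G ∩ {S | S.Infinite} : Set (Set ℕ)) < splittingNumber := by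
    refine lt_of_le_of_lt ((mk_le_mk_of_subset inter_subset_left).trans mk_range_le) ?_
    rw [mk_prod, lift_id, lift_id]
    exact mul_lt_of_lt hinf c1 c2
  refine absurd hG (not_lt.2 (csInf_le' ⟨_, rfl, fun S hS => hS.2, fun B hB => ?_⟩))
  obtain ⟨f1, hf1, v1⟩ := u1 (nxt B)
  obtain ⟨f2, hf2, v2⟩ := u2 (nxt B)
  rw [← Ultrafilter.compl_mem_iff_notMem] at v1 v2
  have hs : Splits (S fun n => f1 n + f2 n) B := by
    refine hS _ B hB (Filter.mem_of_superset v1 fun n hn => ?_)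
      (Filter.mem_of_superset v2 fun n hn => ?_) <;>
    · simp only [mem_compl_iff, mem_ofPred_eq] at hn ⊢
      omega
  exact ⟨_, ⟨⟨(⟨f1, hf1⟩, ⟨f2, hf2⟩), rfl⟩, hs.1.mono inter_subset_right⟩, hs⟩

lemma bdd_aleph_one {V : Ultrafilter ℕ} (hV : Nonprincipal V) : Bdd (ℵ₁) V := by
  intro F hF
  have hc : F.Countable := by
    rwa [← le_aleph0_iff_set_countable, ← Order.lt_succ_iff, succ_aleph0]
  rcases F.eq_empty_or_nonempty with rfl | hne
  · exact ⟨fun _ => 0, fun f hf => absurd hf (notMem_empty f)⟩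
  obtain ⟨g, rfl⟩ := hc.exists_eq_range hne
  refine ⟨fun n => (Finset.range (n + 1)).sup fun i => g i n, ?_⟩
  rintro _ ⟨i, rfl⟩
  have h1 : ({n | n < i}ᶜ : Set ℕ) ∈ V := by
    rw [Ultrafilter.compl_mem_iff_notMem]
    exact fun h => hV _ h (finite_lt_nat i)
  refine Filter.mem_of_superset h1 fun n hn => ?_
  simp only [mem_compl_iff, mem_ofPred_eq, not_lt] at hn ⊢
  exact Finset.le_sup (f := fun i => g i n) (Finset.mem_range.2 (by omega))

/-- among three pairwise non-coherent ultrafilters at most one is coherent with `U` -/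
lemma not_polarized_of_three {V1 V2 V3 : Ultrafilter ℕ} (h1 : Nonprincipal V1)
    (h2 : Nonprincipal V2) (h3 : Nonprincipal V3) (h12 : ¬ NearlyCoherent V1 V2)
    (h13 : ¬ NearlyCoherent V1 V3) (h23 : ¬ NearlyCoherent V2 V3)
    (b1 : Bdd ultrafilterNumber V1) (b2 : Bdd ultrafilterNumber V2)
    (b3 : Bdd ultrafilterNumber V3) : ¬ Polarized ultrafilterNumber := by
  obtain ⟨U, hU, F, hk, hF1, hF2⟩ := exists_base
  by_cases c1 : NearlyCoherent U V1
  · exact not_polarized_of_bdd hU h2 h3 hk hF1 hF2 (fun c => h12 (c1.trans' c))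
      (fun c => h13 (c1.trans' c)) h23 b2 b3
  by_cases c2 : NearlyCoherent U V2
  · exact not_polarized_of_bdd hU h1 h3 hk hF1 hF2 c1 (fun c => h23 (c2.trans' c)) h13 b1 b3
  · exact not_polarized_of_bdd hU h1 h2 hk hF1 hF2 c1 c2 h12 b1 b2

lemma not_polarized_of_three_far {U V1 V2 V3 : Ultrafilter ℕ} (hU : Nonprincipal U)
    {F : Set (Set ℕ)} (hk : #F = splittingNumber) (hF1 : ∀ B ∈ F, B ∈ U)
    (hF2 : ∀ A ∈ U, ∃ B ∈ F, B ⊆ A) (h1 : Nonprincipal V1)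
    (h2 : Nonprincipal V2) (h3 : Nonprincipal V3) (h12 : ¬ NearlyCoherent V1 V2)
    (h13 : ¬ NearlyCoherent V1 V3) (h23 : ¬ NearlyCoherent V2 V3)
    (c1 : ¬ NearlyCoherent U V1) (c2 : ¬ NearlyCoherent U V2) (c3 : ¬ NearlyCoherent U V3) :
    ¬ Polarized splittingNumber := by
  have hinf : ℵ₀ ≤ splittingNumber := hk ▸ aleph0_le_of_base hU hF1 hF2
  rcases bdd_or_bdd h1 h2 h12 hinf with b1 | b2
  · rcases bdd_or_bdd h2 h3 h23 hinf with b2 | b3
    · exact not_polarized_of_bdd hU h1 h2 hk hF1 hF2 c1 c2 h12 b1 b2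
    · exact not_polarized_of_bdd hU h1 h3 hk hF1 hF2 c1 c3 h13 b1 b3
  · rcases bdd_or_bdd h1 h3 h13 hinf with b1 | b3
    · exact not_polarized_of_bdd hU h1 h2 hk hF1 hF2 c1 c2 h12 b1 b2
    · exact not_polarized_of_bdd hU h2 h3 hk hF1 hF2 c2 c3 h23 b2 b3

lemma not_polarized_of_four (hsu : splittingNumber = ultrafilterNumber)
    (V : Fin 4 → Ultrafilter ℕ) (hV : ∀ i, Nonprincipal (V i))
    (hn : ∀ i j, i ≠ j → ¬ NearlyCoherent (V i) (V j)) : ¬ Polarized splittingNumber := by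
  obtain ⟨U, hU, F, hk, hF1, hF2⟩ := exists_base
  rw [← hsu] at hk
  have key : ∀ i j l : Fin 4, i ≠ j → i ≠ l → j ≠ l → ¬ NearlyCoherent U (V i) →
      ¬ NearlyCoherent U (V j) → ¬ NearlyCoherent U (V l) → ¬ Polarized splittingNumber :=
    fun i j l a b c d e f => not_polarized_of_three_far hU hk hF1 hF2 (hV i) (hV j) (hV l)
      (hn i j a) (hn i l b) (hn j l c) d e f
  have far : ∀ i j : Fin 4, i ≠ j → NearlyCoherent U (V i) → ¬ NearlyCoherent U (V j) :=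
    fun i j a b c => hn i j a (b.trans' c)
  by_cases c0 : NearlyCoherent U (V 0)
  · exact key 1 2 3 (by decide) (by decide) (by decide) (far 0 1 (by decide) c0)
      (far 0 2 (by decide) c0) (far 0 3 (by decide) c0)
  by_cases c1 : NearlyCoherent U (V 1)
  · exact key 0 2 3 (by decide) (by decide) (by decide) c0
      (far 1 2 (by decide) c1) (far 1 3 (by decide) c1)
  by_cases c2 : NearlyCoherent U (V 2)
  · exact key 0 1 3 (by decide) (by decide) (by decide) c0 c1 (far 2 3 (by decide) c2)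
  · exact key 0 1 2 (by decide) (by decide) (by decide) c0 c1 c2

end Pool.Agent.Lib.MP_e95952_lc
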