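import Pool.Agent.Lib.MP_e95952_lc.Dia

/-! The value of the mixing invariant, and the case of the continuum. -/

set_option autoImplicit false

open Cardinal Set

namespace Pool.Agent.Lib.MP_e95952_lc

lemma exists_alt (G : ℕ → ℕ) : ∃ Z : Set ℕ,
    (∀ m, ∃ n, m ≤ n ∧ ∀ x, n ≤ x → x ≤ G n → x ∈ Z) ∧
    (∀ m, ∃ n, m ≤ n ∧ ∀ x, n ≤ x → x ≤ G n → x ∉ Z) := by
  let a : ℕ → ℕ := fun k => (fun n => n + G n + 1)^[k] 0
  have ha : ∀ k, a (k + 1) = a k + G (a k) + 1 := fun k => Function.iterate_succ_apply' _ k 0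
  have hmono : StrictMono a := strictMono_nat_of_lt_succ fun k => by rw [ha]; omega
  refine ⟨{x | ∃ j, a (2 * j) ≤ x ∧ x < a (2 * j + 1)}, fun m => ⟨a (2 * m), ?_, fun x h1 h2 =>
    ⟨m, h1, by rw [ha]; omega⟩⟩, fun m => ⟨a (2 * m + 1), ?_, fun x h1 h2 => ?_⟩⟩
  · exact le_trans (show m ≤ 2 * m by omega) (hmono.id_le (2 * m))
  · exact le_trans (show m ≤ 2 * m + 1 by omega) (hmono.id_le (2 * m + 1))
  · rintro ⟨j, h3, h4⟩
    have h5 : x < a (2 * m + 1 + 1) := by rw [ha]; omega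
    have := hmono.lt_iff_lt.1 (h3.trans_lt h5)
    have := hmono.lt_iff_lt.1 (h1.trans_lt h4)
    omega

lemma exists_splitting : ∃ F : Set (Set ℕ), #F = splittingNumber ∧ (∀ S ∈ F, S.Infinite) ∧
    ∀ X : Set ℕ, X.Infinite → ∃ S ∈ F, Splits S X := by
  have : {c | ∃ F : Set (Set ℕ), #F = c ∧ (∀ S ∈ F, S.Infinite) ∧
      ∀ X : Set ℕ, X.Infinite → ∃ S ∈ F, Splits S X}.Nonempty := by
    refine ⟨_, {S | S.Infinite}, rfl, fun S hS => hS, fun X hX => ?_⟩
    obtain ⟨Z, h1, h2⟩ := exists_alt (nxt X)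
    have hs : Splits Z X := by
      constructor <;> refine infinite_of_forall_ge fun m => ?_
      · obtain ⟨n, hn, h⟩ := h1 m
        exact ⟨_, ⟨(nxt_spec hX n).1, h _ (nxt_spec hX n).2 le_rfl⟩, hn.trans (nxt_spec hX n).2⟩
      · obtain ⟨n, hn, h⟩ := h2 m
        exact ⟨_, ⟨(nxt_spec hX n).1, h _ (nxt_spec hX n).2 le_rfl⟩, hn.trans (nxt_spec hX n).2⟩
    exact ⟨Z, hs.1.mono inter_subset_right, hs⟩
  exact csInf_mem this

lemma splitting_le {ι : Type} (S : ι → Set ℕ) (h : ∀ X : Set ℕ, X.Infinite → ∃ i, Splits (S i) X) :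
    splittingNumber ≤ #(ι) := by
  refine le_trans (csInf_le' ⟨range S ∩ {S | S.Infinite}, rfl, fun S hS => hS.2, fun X hX => ?_⟩)
    ((mk_le_mk_of_subset inter_subset_left).trans mk_range_le)
  obtain ⟨i, hi⟩ := h X hX
  exact ⟨_, ⟨⟨i, rfl⟩, hi.1.mono inter_subset_right⟩, hi⟩

lemma aleph_one_le_splitting : ℵ₁ ≤ splittingNumber := by
  by_contra hc
  obtain ⟨F, hF, -, h2⟩ := exists_splitting
  have hcnt : F.Countable := by
    rw [← le_aleph0_iff_set_countable, ← Order.lt_succ_iff, succ_aleph0, hF]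
    exact not_le.1 hc
  obtain ⟨S0, hS0, -⟩ := h2 univ infinite_univ
  obtain ⟨S, rfl⟩ := hcnt.exists_eq_range ⟨S0, hS0⟩
  obtain ⟨U, hU, -⟩ := exists_base
  have hT : ∀ i, ∃ T ∈ U, T = S i ∨ T = (S i)ᶜ := fun i =>
    (U.mem_or_compl_mem (S i)).elim (fun h => ⟨_, h, Or.inl rfl⟩) fun h => ⟨_, h, Or.inr rfl⟩
  choose T hT1 hT2 using hT
  have hx : ∀ n, ∃ x, n < x ∧ ∀ i ≤ n, x ∈ T i := fun n => by
    have : (⋂ i ∈ Finset.range (n + 1), T i) ∈ U :=
      (Filter.biInter_finset_mem _).2 fun i _ => hT1 i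
    obtain ⟨x, hx, hlt⟩ := (hU _ this).exists_gt n
    exact ⟨x, hlt, fun i hi => mem_iInter₂.1 hx i (Finset.mem_range.2 (by omega))⟩
  choose x hx1 hx2 using hx
  obtain ⟨_, ⟨i, rfl⟩, hs⟩ := h2 (range x)
    (infinite_of_forall_ge fun m => ⟨_, ⟨m, rfl⟩, (hx1 m).le⟩)
  have hfin : (range x \ T i).Finite := by
    refine ((finite_lt_nat i).image x).subset ?_
    rintro _ ⟨⟨j, rfl⟩, hj⟩
    exact ⟨j, not_le.1 fun h => hj (hx2 j i h), rfl⟩
  rcases hT2 i with h | h <;> rw [h] at hfin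
  · exact hs.2 hfin
  · exact hs.1 (by rwa [sdiff_compl] at hfin)

theorem invValue_mixes (hsu : splittingNumber = ultrafilterNumber) :
    invValue Mixes = splittingNumber := by
  obtain ⟨F, hF, -, h2⟩ := exists_splitting
  obtain ⟨U, hU, G, hG, hG1, hG2⟩ := exists_base
  let φ : F × G → Set ℕ × InfSet := fun p => (p.1.1, ⟨p.2.1, hU _ (hG1 _ p.2.2)⟩)
  have key : ∀ b : InfSet, ∃ y ∈ range φ, Mixes b y := fun b => by
    obtain ⟨S, hS, hs1, hs2⟩ := h2 b.1 b.2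
    obtain ⟨Z, z1, z2⟩ := exists_alt fun n => nxt (b.1 ∩ S) n + nxt (b.1 \ S) n
    have main : ∀ Y : G, (∀ m, ∃ n, m ≤ n ∧ ∀ x, n ≤ x →
        x ≤ nxt (b.1 ∩ S) n + nxt (b.1 \ S) n → x ∉ Y.1) → ∃ y ∈ range φ, Mixes b y := by
      refine fun Y hY => ⟨_, ⟨(⟨S, hS⟩, Y), rfl⟩, fun m => ?_⟩
      obtain ⟨n, hn, h⟩ := hY m
      have e1 := nxt_spec hs1 n
      have e2 := nxt_spec hs2 n
      refine ⟨_, e1.1, _, e2.1, hn.trans e1.2, hn.trans e2.2, fun z hz => ?_⟩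
      have : z < n ∨ nxt (b.1 ∩ S) n + nxt (b.1 \ S) n < z := by
        by_contra hc
        exact h z (by omega) (by omega) hz
      have := e1.2
      have := e2.2
      omega
    rcases U.mem_or_compl_mem Z with h | h
    · obtain ⟨Y, hY, hs⟩ := hG2 _ h
      refine main ⟨Y, hY⟩ fun m => ?_
      obtain ⟨n, hn, h'⟩ := z2 m
      exact ⟨n, hn, fun x h1 h2 hx => h' x h1 h2 (hs hx)⟩
    · obtain ⟨Y, hY, hs⟩ := hG2 _ h
      refine main ⟨Y, hY⟩ fun m => ?_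
      obtain ⟨n, hn, h'⟩ := z1 m
      exact ⟨n, hn, fun x h1 h2 hx => hs hx (h' x h1 h2)⟩
  apply le_antisymm
  · refine le_trans (csInf_le' ⟨range φ, rfl, key⟩) (mk_range_le.trans ?_)
    rw [mk_prod, lift_id, lift_id, hF, hG, ← hsu,
      mul_eq_self ((aleph0_le_aleph 1).trans aleph_one_le_splitting)]
  · refine le_csInf ⟨_, _, rfl, key⟩ ?_
    rintro _ ⟨D, rfl, hD⟩
    refine splitting_le (fun p : D => p.1.1) fun X hX => ?_
    obtain ⟨y, hy, hm⟩ := hD ⟨X, hX⟩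
    refine ⟨⟨y, hy⟩, infinite_of_forall_ge fun m => ?_, infinite_of_forall_ge fun m => ?_⟩ <;>
      obtain ⟨x, hx, x', hx', h1, h2, -⟩ := hm m
    · exact ⟨x, hx, h1⟩
    · exact ⟨x', hx', h2⟩

/-- an unsplit family gives an ultrafilter all of whose members contain a set of a small family -/
lemma exists_pi_base {R : Set (Set ℕ)} (h1 : ∀ X ∈ R, X.Infinite)
    (h2 : ∀ S, ∃ X ∈ R, ¬ Splits S X) : ∃ (U : Ultrafilter ℕ) (P : List (R × ℕ) → ℕ → ℕ),
      (∀ l, StrictMono (P l)) ∧ ∀ A ∈ U, ∃ l, range (P l) ⊆ A := by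
  let P : List (R × ℕ) → ℕ → ℕ := fun l =>
    l.foldr (fun q f n => f (Nat.nth (· ∈ q.1.1) (n + q.2))) id
  have hP : ∀ l, StrictMono (P l) := fun l => by
    induction l with
    | nil => exact strictMono_id
    | cons q l ih =>
      exact fun a b hab => ih (Nat.nth_strictMono (h1 _ q.1.2) (Nat.add_lt_add_right hab _))
  have tail : ∀ (X : R) (A : Set ℕ), (X.1 \ A).Finite →
      ∃ m, ∀ n, Nat.nth (· ∈ X.1) (n + m) ∈ A := fun X A hA => by
    obtain ⟨m, hm⟩ := hA.bddAbove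
    refine ⟨m + 1, fun n => by_contra fun hc => ?_⟩
    have e1 := hm ⟨Nat.nth_mem_of_infinite (h1 _ X.2) (n + (m + 1)), hc⟩
    have e2 := (Nat.nth_strictMono (h1 _ X.2)).id_le (n + (m + 1))
    simp only [id] at e2
    omega
  have dec : ∀ l (A : Set ℕ), ∃ l', range (P l') ⊆ range (P l) ∧
      (range (P l') ⊆ A ∨ range (P l') ⊆ Aᶜ) := fun l A => by
    obtain ⟨X, hX, hs⟩ := h2 (P l ⁻¹' A)
    rw [Splits, not_and_or, not_infinite, not_infinite] at hs
    rcases hs with hs | hs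
    · obtain ⟨m, hm⟩ := tail ⟨X, hX⟩ (P l ⁻¹' A)ᶜ (by rwa [sdiff_compl])
      refine ⟨(⟨X, hX⟩, m) :: l, ?_, Or.inr ?_⟩ <;> rintro _ ⟨n, rfl⟩
      · exact ⟨_, rfl⟩
      · exact hm n
    · obtain ⟨m, hm⟩ := tail ⟨X, hX⟩ (P l ⁻¹' A) hs
      refine ⟨(⟨X, hX⟩, m) :: l, ?_, Or.inl ?_⟩ <;> rintro _ ⟨n, rfl⟩
      · exact ⟨_, rfl⟩
      · exact hm n
  let Φ : Filter ℕ :=
    { sets := {A | ∀ l, ¬ range (P l) ⊆ Aᶜ}
      univ_sets := fun l hl => hl ⟨0, rfl⟩ trivial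
      sets_of_superset := fun hA hAB l hl => hA l (hl.trans (compl_subset_compl.2 hAB))
      inter_sets := fun {A B} hA hB l hl => by
        obtain ⟨l', h3, h4 | h4⟩ := dec l A
        · exact hB l' fun x hx hxB => hl (h3 hx) ⟨h4 hx, hxB⟩
        · exact hA l' h4 }
  have : Φ.NeBot := ⟨fun hc => by
    have : (∅ : Set ℕ) ∈ Φ := hc ▸ Filter.mem_bot
    exact this [] (by simp)⟩
  refine ⟨Ultrafilter.of Φ, P, hP, fun A hA => by_contra fun hc => ?_⟩
  have : Aᶜ ∈ Φ := fun l hl => hc ⟨l, by rwa [compl_compl] at hl⟩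
  exact (Ultrafilter.compl_mem_iff_notMem.1 (Ultrafilter.of_le Φ this)) hA

lemma ultra_le_of_pi_base {ι : Type} {U : Ultrafilter ℕ} {P : ι → Set ℕ}
    (h1 : ∀ i, (P i).Infinite) (h2 : ∀ A ∈ U, ∃ i, P i ⊆ A) (hs : #(ι) < splittingNumber) :
    ultrafilterNumber ≤ #(ι) := by
  obtain ⟨h, hh⟩ : ∃ h : ℕ → ℕ, ∀ i, {n | nxt (P i) n ≤ h n} ∈ U := by
    by_contra hc
    push Not at hc
    choose Z z1 z2 using fun p : ι × ι => exists_alt fun n => nxt (P p.1) (nxt (P p.2) n)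
    have := splitting_le Z fun X hX => by
      obtain ⟨i, hi⟩ := hc (nxt X)
      obtain ⟨j, hj⟩ := h2 _ (Ultrafilter.compl_mem_iff_notMem.2 hi)
      have key : ∀ n, ∃ x ∈ X, n ≤ x ∧ x ≤ nxt (P i) (nxt (P j) n) := fun n => by
        have e1 := nxt_spec (h1 j) n
        have e2 := nxt_spec hX (nxt (P j) n)
        exact ⟨_, e2.1, e1.2.trans e2.2, (not_le.1 (show ¬ nxt (P i) _ ≤ nxt X _ from hj e1.1)).le⟩
      refine ⟨(i, j), infinite_of_forall_ge fun m => ?_, infinite_of_forall_ge fun m => ?_⟩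
      · obtain ⟨n, hn, h⟩ := z1 (i, j) m
        obtain ⟨x, hx, a1, a2⟩ := key n
        exact ⟨x, ⟨hx, h x a1 a2⟩, hn.trans a1⟩
      · obtain ⟨n, hn, h⟩ := z2 (i, j) m
        obtain ⟨x, hx, a1, a2⟩ := key n
        exact ⟨x, ⟨hx, h x a1 a2⟩, hn.trans a1⟩
    rw [mk_prod, lift_id] at this
    exact this.not_gt (mul_lt_of_lt ((aleph0_le_aleph 1).trans aleph_one_le_splitting) hs hs)
  obtain ⟨f, f1, f2⟩ := exists_index fun n => n + h n
  obtain ⟨r, hr3, hr⟩ : ∃ r, r < 3 ∧ {n | f n % 3 = r} ∈ U := by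
    by_contra hc
    push Not at hc
    have a0 := Ultrafilter.compl_mem_iff_notMem.2 (hc 0 (by omega))
    have a1 := Ultrafilter.compl_mem_iff_notMem.2 (hc 1 (by omega))
    have a2 := Ultrafilter.compl_mem_iff_notMem.2 (hc 2 (by omega))
    obtain ⟨n, ⟨b0, b1⟩, b2⟩ := U.nonempty_of_mem (Filter.inter_mem (Filter.inter_mem a0 a1) a2)
    simp only [mem_compl_iff, mem_ofPred_eq] at b0 b1 b2
    omega
  let q : ℕ → ℕ := fun n => (f n + (4 - r)) / 3
  have hmem : ∀ i, q '' P i ∈ U.map q := fun i => by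
    rw [Ultrafilter.mem_map]
    refine Filter.mem_of_superset (Filter.inter_mem hr (hh i)) ?_
    rintro n ⟨a1, a2⟩
    have e := nxt_spec (h1 i) n
    refine ⟨_, e.1, ?_⟩
    have b1 := f2 n (nxt (P i) n)
    have b2 := f2 (nxt (P i) n) n
    have := e.2
    simp only [mem_ofPred_eq] at a1 a2
    simp only [q]
    omega
  have hbase : ∀ A ∈ U.map q, ∃ i, q '' P i ⊆ A := fun A hA => by
    obtain ⟨i, hi⟩ := h2 _ (Ultrafilter.mem_map.1 hA)
    exact ⟨i, image_subset_iff.2 hi⟩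
  refine le_trans (csInf_le' ⟨U.map q, fun A hA => ?_, range fun i => q '' P i, rfl, ?_,
    fun A hA => ?_⟩) mk_range_le
  · obtain ⟨i, hi⟩ := hbase A hA
    refine Infinite.mono hi (infinite_of_forall_ge fun m => ?_)
    obtain ⟨N, hN⟩ := f1 (3 * m)
    obtain ⟨x, hx, hlt⟩ := (h1 i).exists_gt N
    refine ⟨_, ⟨x, hx, rfl⟩, ?_⟩
    have := hN x
    simp only [q]
    omega
  · rintro _ ⟨i, rfl⟩
    exact hmem i
  · obtain ⟨i, hi⟩ := hbase A hA
    exact ⟨_, ⟨i, rfl⟩, hi⟩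

theorem not_polarized_continuum (hsu : splittingNumber = ultrafilterNumber)
    (hc : 𝔠 ≤ splittingNumber) : ¬ Polarized splittingNumber := by
  have hinf : ℵ₀ < splittingNumber := aleph0_lt_aleph_one.trans_le aleph_one_le_splitting
  have reap : ∀ R : Set (Set ℕ), #R < splittingNumber → (∀ X ∈ R, X.Infinite) →
      ∃ S, ∀ X ∈ R, Splits S X := fun R hR h1 => by
    by_contra hn
    push Not at hn
    obtain ⟨U, P, hP, hU⟩ := exists_pi_base h1 hn
    have hl : #(List (R × ℕ)) < splittingNumber := by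
      refine (mk_list_le_max _).trans_lt (max_lt hinf ?_)
      rw [mk_prod, lift_id, lift_id, mk_nat]
      exact mul_lt_of_lt hinf.le hR hinf
    exact (hsu ▸ ultra_le_of_pi_base (fun l => infinite_range_of_injective (hP l).injective)
      hU hl).not_gt hl
  have : Nonempty InfSet := ⟨⟨univ, infinite_univ⟩⟩
  obtain ⟨e⟩ : #InfSet ≤ #(splittingNumber.ord.ToType) := by
    rw [mk_ord_toType]
    refine (mk_set_le _).trans (le_trans ?_ hc)
    simp
  let X := Function.invFun e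
  have hX : ∀ b, X (e b) = b := Function.leftInverse_invFun e.injective
  have small : ∀ a : splittingNumber.ord.ToType, #(Iio a) < splittingNumber := fun a => by
    have := mk_Iio_lt a (by simp)
    rwa [mk_ord_toType] at this
  have hS : ∀ a, ∃ S, ∀ c < a, Splits S (X c).1 := fun a => by
    obtain ⟨S, hS⟩ := reap ((fun c => (X c).1) '' Iio a) (mk_image_le.trans_lt (small a))
      (by rintro _ ⟨c, -, rfl⟩; exact (X c).2)
    exact ⟨S, fun c hc => hS _ ⟨c, hc, rfl⟩⟩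
  choose S hS using hS
  refine not_polarized_of_seq S fun B hB => ?_
  have hsub : {a | ¬ Splits (S a) B} ⊆ insert (e ⟨B, hB⟩) (Iio (e ⟨B, hB⟩)) := fun a ha => by
    rw [Iio_insert]
    refine mem_Iic.2 (not_lt.1 fun hlt => ha ?_)
    have := hS a _ hlt
    rwa [hX] at this
  exact (mk_le_mk_of_subset hsub).trans_lt (mk_insert_le.trans_lt
    (add_lt_of_lt hinf.le (small _) (one_lt_aleph0.trans hinf)))

theorem negative_of_canonical (hc : 𝔠 ≤ aleph.{0} 2)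
    (hd : invValue Mixes ≤ ℵ₁ → ParamDiamond Mixes)
    (hsu : splittingNumber = ultrafilterNumber) : ¬ Polarized splittingNumber := by
  rcases aleph_one_le_splitting.eq_or_lt with h | h
  · exact h ▸ not_polarized_of_diamond (hd ((invValue_mixes hsu).trans h.symm).le)
  · refine not_polarized_continuum hsu (hc.trans ?_)
    have e : aleph.{0} 2 = Order.succ (aleph 1) := by
      rw [succ_aleph, one_add_one_eq_two]
    rw [e]
    exact Order.succ_le_of_lt h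

end Pool.Agent.Lib.MP_e95952_lc
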