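import Pool.Agent.Lib.MP_e95952_lc.DiaDefs
import Pool.Agent.Lib.MP_e95952_lc.Coh
import Pool.Agent.Lib.MP_a0c85e_lc.Base

/-! Towers of colourings that agree up to a sign on blocks, and the guessing argument. -/

set_option autoImplicit false

open Cardinal Set

namespace Pool.Agent.Lib.MP_e95952_lc

/-- A colouring together with a set of cut points. -/
abbrev Lev : Type := Set ℕ × Set ℕ

/-- different colours, no cut point between -/
def Edge (p : Lev) (x y : ℕ) : Prop := (x ∈ p.1 ↔ y ∉ p.1) ∧ ∀ z, z ∈ p.2 → (z ≤ x ↔ z ≤ y)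

def LeL (p q : Lev) : Prop := ∃ m, ∀ x y, m ≤ x → m ≤ y → Edge p x y → Edge q x y

lemma LeL.refl (p : Lev) : LeL p p := ⟨0, fun _ _ _ _ h => h⟩

lemma LeL.trans {p q r : Lev} (h1 : LeL p q) (h2 : LeL q r) : LeL p r := by
  obtain ⟨m1, h1⟩ := h1
  obtain ⟨m2, h2⟩ := h2
  exact ⟨m1 + m2, fun x y hx hy h =>
    h2 x y (by omega) (by omega) (h1 x y (by omega) (by omega) h)⟩

def Caught (b : Set ℕ) (p : Lev) : Prop := ∀ m, ∃ x ∈ b, ∃ y ∈ b, m ≤ x ∧ m ≤ y ∧ Edge p x y

lemma Caught.mono {b : Set ℕ} {p q : Lev} (h : Caught b p) (hl : LeL p q) : Caught b q := by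
  obtain ⟨m0, hl⟩ := hl
  intro m
  obtain ⟨x, hx, y, hy, h1, h2, h3⟩ := h (m0 + m)
  exact ⟨x, hx, y, hy, by omega, by omega, hl x y (by omega) (by omega) h3⟩

lemma Caught.splits {b : Set ℕ} {p : Lev} (h : Caught b p) : Splits p.1 b := by
  constructor <;> refine infinite_of_forall_ge fun m => ?_ <;>
    obtain ⟨x, hx, y, hy, h1, h2, h3, -⟩ := h m <;> by_cases hxp : x ∈ p.1
  · exact ⟨x, ⟨hx, hxp⟩, h1⟩
  · exact ⟨y, ⟨hy, by_contra fun hc => hxp (h3.2 hc)⟩, h2⟩
  · exact ⟨y, ⟨hy, h3.1 hxp⟩, h2⟩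
  · exact ⟨x, ⟨hx, hxp⟩, h1⟩

/-- the ends of the windows -/
noncomputable def kk (d : ℕ → Lev) : ℕ → ℕ
  | 0 => 0
  | n + 1 => sInf {m | kk d n < m ∧ m ∈ (d n).2 ∧
      ∀ x y, m ≤ x → m ≤ y → Edge (d n) x y → Edge (d (n + 1)) x y}

def Good (d : ℕ → Lev) : Prop := ∀ n, (d n).2.Infinite ∧ LeL (d n) (d (n + 1))

variable {d : ℕ → Lev}

lemma Good.spec (h : Good d) (n : ℕ) : kk d n < kk d (n + 1) ∧ kk d (n + 1) ∈ (d n).2 ∧
    ∀ x y, kk d (n + 1) ≤ x → kk d (n + 1) ≤ y → Edge (d n) x y → Edge (d (n + 1)) x y := by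
  have : {m | kk d n < m ∧ m ∈ (d n).2 ∧
      ∀ x y, m ≤ x → m ≤ y → Edge (d n) x y → Edge (d (n + 1)) x y}.Nonempty := by
    obtain ⟨m0, h0⟩ := (h n).2
    obtain ⟨m, hm, hlt⟩ := (h n).1.exists_gt (kk d n + m0)
    exact ⟨m, by omega, hm, fun x y hx hy => h0 x y (by omega) (by omega)⟩
  exact Nat.sInf_mem this

lemma Good.mono (h : Good d) : StrictMono (kk d) := strictMono_nat_of_lt_succ fun n => (h.spec n).1

/-- `x` lies in the window number `n` -/
def Win (d : ℕ → Lev) (n x : ℕ) : Prop := kk d n ≤ x ∧ x < kk d (n + 1)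

lemma Good.exists_win (h : Good d) (x : ℕ) : ∃ n, Win d n x := by
  induction x with
  | zero => exact ⟨0, le_rfl, (h.spec 0).1⟩
  | succ x ih =>
    obtain ⟨n, h1, h2⟩ := ih
    by_cases hc : x + 1 < kk d (n + 1)
    · exact ⟨n, by omega, hc⟩
    · have := (h.spec (n + 1)).1
      exact ⟨n + 1, by omega, by omega⟩

lemma Good.le_iff (h : Good d) {n x : ℕ} (hw : Win d n x) (z : ℕ) : kk d z ≤ x ↔ z ≤ n := by
  constructor
  · intro hz
    exact Nat.lt_succ_iff.1 (h.mono.lt_iff_lt.1 (hz.trans_lt hw.2))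
  · intro hz
    exact (h.mono.monotone hz).trans hw.1

lemma Good.win_unique (h : Good d) {n n' x : ℕ} (h1 : Win d n x) (h2 : Win d n' x) : n = n' :=
  le_antisymm ((h.le_iff h2 n).1 h1.1) ((h.le_iff h1 n').1 h2.1)

/-- the next level: the old colours window by window, with the signs `S` and the cuts `Y` -/
def step (d : ℕ → Lev) (S Y : Set ℕ) : Lev :=
  ({x | ∃ n, Win d n x ∧ (x ∈ (d n).1 ↔ n ∈ S)}, kk d '' Y)

lemma Good.mem_step (h : Good d) {S Y : Set ℕ} {n x : ℕ} (hw : Win d n x) :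
    x ∈ (step d S Y).1 ↔ (x ∈ (d n).1 ↔ n ∈ S) := by
  constructor
  · rintro ⟨n', h1, h2⟩
    rwa [h.win_unique hw h1]
  · exact fun h2 => ⟨n, hw, h2⟩

lemma Good.edge_step (h : Good d) {S Y : Set ℕ} {n n' x y : ℕ} (hx : Win d n x) (hy : Win d n' y)
    (hc : (x ∈ (d n).1 ↔ n ∈ S) ↔ ¬ (y ∈ (d n').1 ↔ n' ∈ S)) (hg : ∀ z ∈ Y, (z ≤ n ↔ z ≤ n')) :
    Edge (step d S Y) x y := by
  refine ⟨by rw [h.mem_step hx, h.mem_step hy]; exact hc, ?_⟩
  rintro _ ⟨z, hz, rfl⟩
  rw [h.le_iff hx, h.le_iff hy]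
  exact hg z hz

lemma Good.chain (h : Good d) {i n x y : ℕ} (hin : i ≤ n) (hx : kk d n ≤ x) (hy : kk d n ≤ y)
    (he : Edge (d i) x y) : Edge (d n) x y := by
  induction n, hin using Nat.le_induction with
  | base => exact he
  | succ n _ ih =>
    have := (h.spec n).1
    exact (h.spec n).2.2 x y hx hy (ih (by omega) (by omega))

lemma Good.le_step (h : Good d) (S Y : Set ℕ) (i : ℕ) : LeL (d i) (step d S Y) := by
  refine ⟨kk d i, fun x y hx hy he => ?_⟩
  obtain ⟨n, hn⟩ := h.exists_win x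
  obtain ⟨n', hn'⟩ := h.exists_win y
  have i1 : i ≤ n := (h.le_iff hn i).1 hx
  have i2 : i ≤ n' := (h.le_iff hn' i).1 hy
  have key : n = n' := by
    rcases lt_trichotomy n n' with hl | hl | hl
    · have e := h.chain i1 hn.1 ((h.le_iff hn' n).2 hl.le) he
      have := (e.2 _ (h.spec n).2.1).2 ((h.le_iff hn' (n + 1)).2 hl)
      exact absurd this (not_le.2 hn.2)
    · exact hl
    · have e := h.chain i2 ((h.le_iff hn n').2 hl.le) hn'.1 he
      have := (e.2 _ (h.spec n').2.1).1 ((h.le_iff hn (n' + 1)).2 hl)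
      exact absurd this (not_le.2 hn'.2)
  subst key
  have e := (h.chain i1 hn.1 hn'.1 he).1
  exact h.edge_step hn hn' (by tauto) fun _ _ => Iff.rfl

/-- windows with a point of `b` inside, respectively outside, the old colouring -/
def inW (d : ℕ → Lev) (b : Set ℕ) : Set ℕ := {n | ∃ x, x ∈ b ∧ Win d n x ∧ x ∈ (d n).1}

def outW (d : ℕ → Lev) (b : Set ℕ) : Set ℕ := {n | ∃ x, x ∈ b ∧ Win d n x ∧ x ∉ (d n).1}

def Unb (A : Set ℕ) : Prop := ∀ m, ∃ n, n ∈ A ∧ m ≤ n

lemma unb_iff {A : Set ℕ} : Unb A ↔ A.Infinite :=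
  ⟨fun h => infinite_of_forall_ge h, fun h m => by
    obtain ⟨n, hn, hlt⟩ := h.exists_gt m
    exact ⟨n, hn, hlt.le⟩⟩

/-- the challenge -/
def chal (d : ℕ → Lev) (b : Set ℕ) : Set ℕ :=
  {n | (Unb (inW d b) ∧ n ∈ inW d b) ∨ (¬ Unb (inW d b) ∧ (Unb (outW d b) → n ∈ outW d b))}

lemma chal_infinite (d : ℕ → Lev) (b : Set ℕ) : (chal d b).Infinite := by
  by_cases h1 : Unb (inW d b)
  · exact (unb_iff.1 h1).mono fun n hn => Or.inl ⟨h1, hn⟩
  by_cases h2 : Unb (outW d b)
  · exact (unb_iff.1 h2).mono fun n hn => Or.inr ⟨h1, fun _ => hn⟩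
  · exact infinite_univ.mono fun n _ => Or.inr ⟨h1, fun h => absurd h h2⟩

lemma Good.caught (h : Good d) {b : Set ℕ} (hb : b.Infinite) {p : Set ℕ × InfSet}
    (hm : Mixes ⟨chal d b, chal_infinite d b⟩ p) : Caught b (step d p.1 p.2.1) := by
  intro m
  obtain ⟨n, ⟨hn, hS⟩, n', ⟨hn', hS'⟩, h1, h2, hg⟩ := hm m
  have up : ∀ {j x : ℕ}, Win d j x → m ≤ j → m ≤ x := fun {j x} hw hj =>
    hj.trans ((h.mono.id_le j).trans hw.1)
  by_cases c1 : Unb (inW d b)
  · obtain ⟨x, hx, w1, e1⟩ : n ∈ inW d b := hn.elim (·.2) fun c => absurd c1 c.1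
    obtain ⟨y, hy, w2, e2⟩ : n' ∈ inW d b := hn'.elim (·.2) fun c => absurd c1 c.1
    exact ⟨x, hx, y, hy, up w1 h1, up w2 h2, h.edge_step w1 w2 (by tauto) hg⟩
  have c2 : Unb (outW d b) := by
    intro m'
    simp only [Unb, not_forall, not_exists, not_and, not_le] at c1
    obtain ⟨m0, c1⟩ := c1
    obtain ⟨x, hx, hlt⟩ := hb.exists_gt (kk d (m0 + m'))
    obtain ⟨j, hj⟩ := h.exists_win x
    have hj2 := (h.le_iff hj (m0 + m')).1 hlt.le
    refine ⟨j, ⟨x, hx, hj, fun hc => ?_⟩, by omega⟩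
    have := c1 j ⟨x, hx, hj, hc⟩
    omega
  obtain ⟨x, hx, w1, e1⟩ : n ∈ outW d b := hn.elim (fun c => absurd c.1 c1) fun c => c.2 c2
  obtain ⟨y, hy, w2, e2⟩ : n' ∈ outW d b := hn'.elim (fun c => absurd c.1 c1) fun c => c.2 c2
  exact ⟨x, hx, y, hy, up w1 h1, up w2 h2, h.edge_step w1 w2 (by tauto) hg⟩

section meas

variable {X : Type} [MeasurableSpace X]

lemma measurable_sInf {p : X → ℕ → Prop} (hp : ∀ m, Measurable fun x => p x m) :
    Measurable fun x => sInf {m | p x m} := by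
  refine measurable_to_countable' fun j => ?_
  have : (fun x => sInf {m | p x m}) ⁻¹' {j} =
      {x | (p x j ∧ ∀ i, i < j → ¬ p x i) ∨ (j = 0 ∧ ∀ m, ¬ p x m)} := by
    ext x
    simp only [mem_preimage, mem_singleton_iff, mem_ofPred_eq]
    constructor
    · rintro rfl
      by_cases hne : {m | p x m}.Nonempty
      · exact Or.inl ⟨Nat.sInf_mem hne, fun i hi => Nat.notMem_of_lt_sInf hi⟩
      · refine Or.inr ⟨?_, fun m hm => hne ⟨m, hm⟩⟩
        rw [not_nonempty_iff_eq_empty.1 hne, Nat.sInf_empty]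
    · rintro (⟨h1, h2⟩ | ⟨rfl, h2⟩)
      · refine le_antisymm (Nat.sInf_le h1) (not_lt.1 fun hc => h2 _ hc ?_)
        exact Nat.sInf_mem (s := {m | p x m}) ⟨j, h1⟩
      · rw [show {m | p x m} = ∅ from eq_empty_of_forall_notMem h2, Nat.sInf_empty]
  rw [this]
  exact measurableSet_setOfPred.2 (((hp j).and (.forall fun i => measurable_const.imp (hp i).not)).or
    (measurable_const.and (.forall fun m => (hp m).not)))

variable {D : X → ℕ → Lev} {B : X → Set ℕ}

lemma measurable_edge (h1 : ∀ n x, Measurable fun t => x ∈ (D t n).1)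
    (h2 : ∀ n x, Measurable fun t => x ∈ (D t n).2) (n x y : ℕ) :
    Measurable fun t => Edge (D t n) x y :=
  ((h1 n x).iff (h1 n y).not).and (.forall fun z => (h2 n z).imp measurable_const)

lemma measurable_kk (h1 : ∀ n x, Measurable fun t => x ∈ (D t n).1)
    (h2 : ∀ n x, Measurable fun t => x ∈ (D t n).2) (n : ℕ) :
    Measurable fun t => kk (D t) n := by
  induction n with
  | zero => exact measurable_const
  | succ n ih =>
    refine measurable_sInf fun m => ?_
    refine ((measurable_from_top (f := fun j : ℕ => j < m)).comp ih).and ((h2 n m).and ?_)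
    exact .forall fun x => .forall fun y => measurable_const.imp (measurable_const.imp
      ((measurable_edge h1 h2 n x y).imp (measurable_edge h1 h2 (n + 1) x y)))

lemma measurable_chal (h1 : ∀ n x, Measurable fun t => x ∈ (D t n).1)
    (h2 : ∀ n x, Measurable fun t => x ∈ (D t n).2) (h3 : ∀ x, Measurable fun t => x ∈ B t) :
    Measurable fun t => chal (D t) (B t) := by
  have hw : ∀ n x, Measurable fun t => Win (D t) n x := fun n x =>
    ((measurable_from_top (f := fun j : ℕ => j ≤ x)).comp (measurable_kk h1 h2 n)).and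
      ((measurable_from_top (f := fun j : ℕ => x < j)).comp (measurable_kk h1 h2 (n + 1)))
  have hi : ∀ n, Measurable fun t => n ∈ inW (D t) (B t) := fun n =>
    .exists fun x => (h3 x).and ((hw n x).and (h1 n x))
  have ho : ∀ n, Measurable fun t => n ∈ outW (D t) (B t) := fun n =>
    .exists fun x => (h3 x).and ((hw n x).and (h1 n x).not)
  have ui : Measurable fun t => Unb (inW (D t) (B t)) :=
    .forall fun m => .exists fun n => (hi n).and measurable_const
  have uo : Measurable fun t => Unb (outW (D t) (B t)) :=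
    .forall fun m => .exists fun n => (ho n).and measurable_const
  exact measurable_set_iff.2 fun n => (ui.and (hi n)).or (ui.not.and (uo.imp (ho n)))

end meas

lemma cof_om1 : Order.cof Om1 = ℵ₁ := by
  rw [Ordinal.cof_toType, isRegular_aleph_one.cof_ord]

lemma iio_lt (a : Om1) : #(Iio a) < ℵ₁ := by
  have := mk_Iio_lt a (by simp)
  rwa [mk_ord_toType] at this

lemma iio_countable (a : Om1) : (Iio a).Countable := by
  have := iio_lt a
  rwa [← le_aleph0_iff_set_countable, ← Order.lt_succ_iff, succ_aleph0]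

lemma exists_ladder (a : Om1) (ha : (Iio a).Nonempty) : ∃ e : ℕ → Iio a, Monotone e ∧
    ∀ c : Iio a, ∃ n, c ≤ e n := by
  have := (iio_countable a).to_subtype
  have := ha.to_subtype
  obtain ⟨e, he⟩ := exists_surjective_nat (Iio a)
  refine ⟨fun n => partialSups e n, (partialSups e).monotone, fun c => ?_⟩
  obtain ⟨n, rfl⟩ := he c
  exact ⟨n, le_partialSups e n⟩

theorem not_polarized_of_diamond (h : ParamDiamond Mixes) : ¬ Polarized ℵ₁ := by
  classical
  have hinf : Infinite Om1 := by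
    rw [Cardinal.infinite_iff, mk_ord_toType]
    exact aleph0_le_aleph 1
  obtain ⟨π, hπ⟩ : ∃ π : Om1 × Fin 3 × ℕ → Om1, Function.Injective π := by
    have : #(Om1 × Fin 3 × ℕ) ≤ #Om1 := by
      simp only [mk_prod, lift_id, mk_ord_toType, mk_denumerable, mk_fintype, Fintype.card_fin]
      rw [nat_mul_aleph0 (by norm_num), mul_aleph0_eq (aleph0_le_aleph 1)]
    obtain ⟨e⟩ := this
    exact ⟨e, e.injective⟩
  choose e he1 he2 using exists_ladder
  let dec : (a : Om1) → (Iio a → Bool) → Om1 → Fin 3 → Set ℕ := fun a φ c j =>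
    {n | ∃ hl : π (c, j, n) < a, φ ⟨_, hl⟩ = true}
  have mdec : ∀ a c j n, Measurable fun φ => n ∈ dec a φ c j := fun a c j n =>
    .exists fun hl => (measurable_from_top (f := fun t : Bool => t = true)).comp
      (measurable_pi_apply (⟨_, hl⟩ : Iio a))
  let F : (a : Om1) → (Iio a → Bool) → InfSet := fun a φ =>
    if ha : (Iio a).Nonempty then
      ⟨chal (fun n => (dec a φ (e a ha n) 0, dec a φ (e a ha n) 1)) (dec a φ (e a ha 0) 2),
        chal_infinite _ _⟩
    else ⟨univ, infinite_univ⟩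
  have mF : ∀ a, Measurable (F a) := fun a => by
    by_cases ha : (Iio a).Nonempty
    · simp only [F, dif_pos ha]
      exact (measurable_chal (fun n x => mdec _ _ _ _) (fun n x => mdec _ _ _ _)
        fun x => mdec _ _ _ _).subtype_mk
    · simp only [F, dif_neg ha]
      exact measurable_const
  obtain ⟨g, hg⟩ := h F mF
  obtain ⟨T, hT⟩ := MP_a0c85e_lc.exists_rec (I := Om1) (β := Lev)
    (fun a T x => x = if ha : (Iio a).Nonempty then
      step (fun n => T (e a ha n)) (g a).1 (g a).2.1 else (∅, univ)) fun a T => ⟨_, rfl⟩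
  have inv : ∀ a, (T a).2.Infinite ∧ (∀ c < a, LeL (T c) (T a)) ∧
      ∀ ha : (Iio a).Nonempty, Good fun n => T (e a ha n) := by
    intro a
    induction a using WellFoundedLT.induction with
    | ind a ih =>
      by_cases ha : (Iio a).Nonempty
      · have hG : Good fun n => T (e a ha n) := fun n => by
          refine ⟨(ih _ (e a ha n).2).1, ?_⟩
          rcases (he1 a ha (Nat.le_succ n)).eq_or_lt with h0 | h0
          · simp only [h0]
            exact LeL.refl _
          · exact (ih _ (e a ha (n + 1)).2).2.1 _ h0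
        have hTa := hT a
        rw [dif_pos ha] at hTa
        refine ⟨?_, fun c hc => ?_, fun _ => hG⟩
        · rw [hTa]
          exact (g a).2.2.image hG.mono.injective.injOn
        · obtain ⟨n, hn⟩ := he2 a ha ⟨c, hc⟩
          have l2 := hG.le_step (g a).1 (g a).2.1 n
          rw [← hTa] at l2
          refine LeL.trans ?_ l2
          rcases hn.eq_or_lt with h0 | h0
          · rw [← h0]
            exact LeL.refl _
          · exact (ih _ (e a ha n).2).2.1 _ h0
      · have hTa := hT a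
        rw [dif_neg ha] at hTa
        exact ⟨by rw [hTa]; exact infinite_univ, fun c hc => absurd ⟨c, hc⟩ ha,
          fun h' => absurd h' ha⟩
  refine not_polarized_of_seq (fun a => (T a).1) fun b hb => ?_
  let code : Om1 → Fin 3 → Set ℕ := fun c => ![(T c).1, (T c).2, b]
  let f : Om1 → Bool := fun a => decide (∃ p, π p = a ∧ p.2.2 ∈ code p.1 p.2.1)
  have hup : ∀ c : Om1, ∃ u, ∀ q : Fin 3 × ℕ, π (c, q) < u := fun c => by
    obtain ⟨u, hu⟩ := MP_a0c85e_lc.bdd_of_small (s := range fun q : Fin 3 × ℕ => π (c, q))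
      (by rw [cof_om1]
          exact (le_aleph0_iff_set_countable.2 (countable_range _)).trans_lt aleph0_lt_aleph_one)
    exact ⟨u, fun q => hu _ ⟨q, rfl⟩⟩
  choose u hu using hup
  have hcof : Order.cof Om1 ≠ ℵ₀ := by rw [cof_om1]; exact aleph0_lt_aleph_one.ne'
  have cl1 := MP_a0c85e_lc.club_closure (A := Om1) (by rw [cof_om1]; exact aleph0_lt_aleph_one)
    (fun a => by rw [cof_om1]; exact iio_lt a) u
  obtain ⟨a0, a1, h01⟩ := exists_pair_lt Om1
  have cl2 : IsClub (Ici a1) :=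
    ⟨(isUpperSet_Ici a1).dirSupClosed, fun c => ⟨max c a1, mem_Ici.2 (le_max_right _ _), le_max_left _ _⟩⟩
  obtain ⟨a, hmix, hcl, h1a⟩ := hg f (cl1.inter hcof cl2)
  have ha : (Iio a).Nonempty := ⟨a0, h01.trans_le h1a⟩
  have hdec : ∀ c : Iio a, ∀ j, dec a (fun x => f x) c j = code c j := fun c j => by
    ext n
    simp only [dec, f, mem_ofPred_eq, decide_eq_true_eq]
    constructor
    · rintro ⟨-, p, hp, hm⟩
      rwa [hπ hp] at hm
    · exact fun hm => ⟨(hu c (j, n)).trans (hcl c c.2), _, rfl, hm⟩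
  have hc : Caught b (T a) := by
    have hTa := hT a
    rw [dif_pos ha] at hTa
    rw [hTa]
    refine ((inv a).2.2 ha).caught hb ?_
    simp only [mem_ofPred_eq, F, dif_pos ha, hdec] at hmix
    exact hmix
  refine lt_of_le_of_lt (mk_le_mk_of_subset fun c hcs => ?_) (iio_lt a)
  by_contra hlt
  rcases (not_lt.1 (show ¬ c < a from hlt)).eq_or_lt with h0 | h0
  · exact hcs (h0 ▸ hc.splits)
  · exact hcs (hc.mono ((inv c).2.1 a h0)).splits

end Pool.Agent.Lib.MP_e95952_lc
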