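import Pool.Agent.Lib.MP_e95952_lc.Defs

set_option autoImplicit false

open Cardinal Set

namespace Pool.Agent.Lib.MP_e95952_lc

/-- The countable ordinals. -/
abbrev Om1 : Type := (aleph 1).ord.ToType

/-- The infinite subsets of `ℕ`. -/
abbrev InfSet : Type := {b : Set ℕ // b.Infinite}

/-- The parametrized diamond of Moore, Hrusak and Dzamonja for a relation `E` between `A` and `B`:
for every map `F` from the binary tree of height `ω₁` to `A` that is Borel on every level there is
`g : ω₁ → B` such that along every branch `f` the guess `g d` answers `F (f ↾ d)` on a stationary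
set of levels `d`. -/
def ParamDiamond {A B : Type} [MeasurableSpace A] (E : A → B → Prop) : Prop :=
  ∀ F : (d : Om1) → (Iio d → Bool) → A, (∀ d, Measurable (F d)) →
    ∃ g : Om1 → B, ∀ f : Om1 → Bool, IsStationary {d | E (F d fun a => f a) (g d)}

/-- The value of the invariant: the least size of a family of answers that answers every
challenge. -/
noncomputable def invValue {A B : Type} (E : A → B → Prop) : Cardinal.{0} :=
  sInf {c | ∃ D : Set B, #D = c ∧ ∀ a, ∃ y ∈ D, E a y}

/-- The pair `(S, Y)` mixes `b`: beyond every bound there are a point of `b` in `S` and a point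
of `b` outside `S` with no element of `Y` between them. -/
def Mixes (b : InfSet) (p : Set ℕ × InfSet) : Prop :=
  ∀ m : ℕ, ∃ x ∈ b.1 ∩ p.1, ∃ y ∈ b.1 \ p.1, m ≤ x ∧ m ≤ y ∧ ∀ z ∈ p.2.1, (z ≤ x ↔ z ≤ y)

end Pool.Agent.Lib.MP_e95952_lc
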